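import Mathlib
import Pool.Agent.W683.BH.Stmts

/-! BH-FREE: free tuples. -/

set_option autoImplicit false

namespace Pool.Agent.W991.BH

open Set Filter Topology Cardinal TopologicalSpace
open Pool.Agent.W683.BH
open scoped Classical

theorem succ_mono' (lam : Cardinal.{0}) : Monotone fun n => (Order.succ^[n] lam) :=
  Order.succ_mono.monotone_iterate_of_le_map (Order.le_succ lam)

theorem le_succ_iter (lam : Cardinal.{0}) (n : ℕ) : lam ≤ (Order.succ^[n] lam) :=
  succ_mono' lam (Nat.zero_le n)

theorem iUnion_le {κ ι : Type} {μ : Cardinal.{0}} (hμ : ℵ₀ ≤ μ) (hι : #ι ≤ μ) (S : ι → Set κ)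
    (h : ∀ i, #(S i) ≤ μ) : #(⋃ i, S i) ≤ μ :=
  (mk_iUnion_le _).trans (mul_le_of_le hμ hι (ciSup_le' h))

theorem exists_not_mem {κ : Type} {S T : Set κ} (h : #S < #T) : ∃ x ∈ T, x ∉ S := by
  by_contra hcon
  push Not at hcon
  exact absurd (mk_le_mk_of_subset (show T ⊆ S from hcon)) (not_le.2 h)

theorem free_aux (κ : Type) (lam : Cardinal.{0}) (hlam : ℵ₀ ≤ lam) (r : ℕ) :
    ∀ X : Fin r → Set κ, (∀ i : Fin r, (Order.succ^[(i : ℕ) + 1] lam) ≤ #(X i)) →
      ∀ B : Fin r → (Fin r → κ) → Set κ, (∀ i a, #(B i a) ≤ lam) →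
      (∀ i a a', (∀ q, q ≠ i → a q = a' q) → B i a = B i a') →
      ∃ a : Fin r → κ, (∀ i, a i ∈ X i) ∧ ∀ i, a i ∉ B i a := by
  induction r with
  | zero =>
    intro X _ B _ _
    exact ⟨fun i => i.elim0, fun i => i.elim0, fun i => i.elim0⟩
  | succ r ih =>
    intro X hX B hB1 hB2
    have hY : ∀ i : Fin r, ∃ Y : Set κ, Y ⊆ X i.castSucc ∧
        #Y = (Order.succ^[(i : ℕ) + 1] lam) := by
      intro i
      have h := hX i.castSucc
      rw [Fin.val_castSucc] at h
      exact le_mk_iff_exists_subset.1 h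
    choose Y hY1 hY2 using hY
    have hμ : ℵ₀ ≤ (Order.succ^[r] lam) := hlam.trans (le_succ_iter lam r)
    -- some element
    have hXl := hX (Fin.last r)
    rw [Fin.val_last] at hXl
    have hlt : (Order.succ^[r] lam) < #(X (Fin.last r)) := by
      refine lt_of_lt_of_le ?_ hXl
      rw [Function.iterate_succ_apply']
      exact Order.lt_succ _
    have hne : Nonempty κ := by
      have h0 : #(X (Fin.last r)) ≠ 0 := (lt_of_le_of_lt zero_le hlt).ne'
      obtain ⟨x⟩ := mk_ne_zero_iff.1 h0
      exact ⟨x.1⟩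
    obtain ⟨x₀⟩ := hne
    -- the union
    have hcard : #(⋃ a : (∀ i : Fin r, Y i), B (Fin.last r)
        (Fin.snoc (α := fun _ => κ) (fun i => (a i).1) x₀)) ≤ (Order.succ^[r] lam) := by
      refine iUnion_le hμ ?_ _ fun a => (hB1 _ _).trans (le_succ_iter lam r)
      rw [mk_pi]
      calc (Cardinal.prod fun i : Fin r => #(Y i)) ≤
          Cardinal.prod fun _ : Fin r => (Order.succ^[r] lam) := by
            refine prod_le_prod _ _ fun i => ?_
            rw [hY2 i]
            exact succ_mono' lam i.2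
        _ = (Order.succ^[r] lam) ^ #(Fin r) := prod_const' _ _
        _ = (Order.succ^[r] lam) ^ (r : Cardinal) := by rw [mk_fin]
        _ = (Order.succ^[r] lam) ^ r := power_natCast _ _
        _ ≤ _ := power_nat_le hμ
    obtain ⟨x, hx1, hx2⟩ := exists_not_mem (lt_of_le_of_lt hcard hlt)
    -- the induction
    obtain ⟨a, ha1, ha2⟩ := ih Y (fun i => (hY2 i).ge) (fun i a => B i.castSucc
        (Fin.snoc (α := fun _ => κ) a x)) (fun i a => hB1 _ _) (fun i a a' haa => by
          refine hB2 _ _ _ fun q hq => ?_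
          induction q using Fin.lastCases with
          | last => rw [Fin.snoc_last, Fin.snoc_last]
          | cast q =>
            rw [Fin.snoc_castSucc, Fin.snoc_castSucc]
            exact haa q fun h => hq (by rw [h]))
    refine ⟨Fin.snoc (α := fun _ => κ) a x, ?_, ?_⟩
    · intro i
      induction i using Fin.lastCases with
      | last => rw [Fin.snoc_last]; exact hx1
      | cast i => rw [Fin.snoc_castSucc]; exact hY1 i (ha1 i)
    · intro i
      induction i using Fin.lastCases with
      | last =>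
        rw [Fin.snoc_last]
        intro h
        refine hx2 (mem_iUnion.2 ⟨fun i => ⟨a i, ha1 i⟩, ?_⟩)
        have h2 := hB2 (Fin.last r) (Fin.snoc (α := fun _ => κ) a x)
          (Fin.snoc (α := fun _ => κ) a x₀) (fun q hq => by
            induction q using Fin.lastCases with
            | last => exact absurd rfl hq
            | cast q => rw [Fin.snoc_castSucc, Fin.snoc_castSucc])
        rw [h2] at h
        exact h
      | cast i =>
        have h := ha2 i
        rw [Fin.snoc_castSucc]
        exact h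

theorem free : T_FREE := by
  intro κ lam r hlam hr B hB1 hB2
  obtain ⟨a, _, ha⟩ := free_aux κ lam hlam r (fun _ => univ) (fun i => by
    rw [mk_univ]
    exact (succ_mono' lam i.2).trans hr) B hB1 hB2
  exact ⟨a, ha⟩

end Pool.Agent.W991.BH
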