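import Mathlib
import Pool.Agent.W683.BH.Stmts

/-! Lemmas on finite configurations and sums of indicators. -/

set_option autoImplicit false

namespace Pool.Agent.W991.BH

open Set Filter Topology Cardinal TopologicalSpace
open Pool.Agent.W683.BH
open scoped Classical

theorem mem_VF {κ L : Type} [TopologicalSpace L] (V : κ → ℕ → Clopens L) (F : Finset (κ × ℕ))
    (y : L) : y ∈ VF V F ↔ ∀ w ∈ F, y ∈ V w.1 w.2 := by
  unfold VF
  induction F using Finset.induction_on with
  | empty => exact ⟨fun _ w hw => absurd hw (Finset.notMem_empty w), fun _ => Set.mem_univ y⟩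
  | insert w F hw ih =>
    rw [Finset.inf_insert]
    have h1 : y ∈ V w.1 w.2 ⊓ F.inf (fun w => V w.1 w.2) ↔ y ∈ V w.1 w.2 ∧
      y ∈ F.inf (fun w => V w.1 w.2) := Iff.rfl
    rw [h1, ih]
    simp

theorem VF_union {κ L : Type} [TopologicalSpace L] (V : κ → ℕ → Clopens L)
    (F G : Finset (κ × ℕ)) (y : L) : y ∈ VF V (F ∪ G) ↔ y ∈ VF V F ∧ y ∈ VF V G := by
  simp only [mem_VF, Finset.mem_union]
  constructor
  · exact fun h => ⟨fun w hw => h w (Or.inl hw), fun w hw => h w (Or.inr hw)⟩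
  · rintro ⟨h1, h2⟩ w (hw | hw)
    · exact h1 w hw
    · exact h2 w hw

theorem VF_anti {κ L : Type} [TopologicalSpace L] (V : κ → ℕ → Clopens L)
    {F G : Finset (κ × ℕ)} (h : F ⊆ G) (y : L) (hy : y ∈ VF V G) : y ∈ VF V F :=
  (mem_VF _ _ _).2 fun w hw => (mem_VF _ _ _).1 hy w (h hw)

theorem VF_ne_bot {κ L : Type} [TopologicalSpace L] (V : κ → ℕ → Clopens L)
    (F : Finset (κ × ℕ)) : VF V F ≠ ⊥ ↔ ∃ y, y ∈ VF V F := by
  constructor
  · intro h
    by_contra hcon
    push Not at hcon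
    refine h ?_
    apply SetLike.coe_injective
    ext y
    exact ⟨fun hy => absurd hy (hcon y), fun hy => absurd hy (Set.notMem_empty y)⟩
  · rintro ⟨y, hy⟩ h
    rw [h] at hy
    exact Set.notMem_empty y hy

/-- sums of values of indicators, at most `K` of which overlap -/
theorem sum_ind_le {L X ι : Type} [TopologicalSpace L] [CompactSpace L] [TopologicalSpace X]
    [CompactSpace X] (T : C(L, ℝ) →L[ℝ] C(X, ℝ)) (W : ι → Clopens L) (A : Finset ι) (K : ℝ)
    (hK : 0 ≤ K) (h : ∀ y : L, ((A.filter (fun c => y ∈ W c)).card : ℝ) ≤ K) (x : X) :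
    ∑ c ∈ A, |T (ind (W c)) x| ≤ ‖T‖ * K := by
  obtain ⟨ε, hε⟩ : ∃ ε : ι → ℝ, ε = fun c => if 0 ≤ T (ind (W c)) x then 1 else -1 := ⟨_, rfl⟩
  obtain ⟨f, hf⟩ : ∃ f : C(L, ℝ), f = ∑ c ∈ A, ε c • ind (W c) := ⟨_, rfl⟩
  have hε1 : ∀ c, |ε c| ≤ 1 := by
    intro c
    rw [hε]
    simp only
    split_ifs <;> simp
  have h1 : T f x = ∑ c ∈ A, |T (ind (W c)) x| := by
    rw [hf, map_sum, ContinuousMap.sum_apply]
    refine Finset.sum_congr rfl fun c _ => ?_
    rw [map_smul, ContinuousMap.smul_apply, smul_eq_mul, hε]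
    simp only
    split_ifs with h0
    · rw [abs_of_nonneg h0, one_mul]
    · rw [abs_of_neg (not_le.1 h0)]
      ring
  have h2 : ‖f‖ ≤ K := by
    rw [ContinuousMap.norm_le _ hK]
    intro y
    rw [hf, ContinuousMap.sum_apply, Real.norm_eq_abs]
    calc |∑ c ∈ A, (ε c • ind (W c)) y| ≤ ∑ c ∈ A, |(ε c • ind (W c)) y| :=
          Finset.abs_sum_le_sum_abs _ _
      _ ≤ ∑ c ∈ A, (if y ∈ W c then (1 : ℝ) else 0) := by
          refine Finset.sum_le_sum fun c _ => ?_
          rw [ContinuousMap.smul_apply, smul_eq_mul, abs_mul]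
          have h3 : |ind (W c) y| = if y ∈ W c then (1 : ℝ) else 0 := by
            change |if y ∈ W c then (1 : ℝ) else 0| = _
            split_ifs <;> simp
          rw [h3]
          have := hε1 c
          split_ifs
          · linarith
          · simp
      _ = ((A.filter (fun c => y ∈ W c)).card : ℝ) := by
          rw [Finset.sum_ite, Finset.sum_const_zero, add_zero, Finset.sum_const, nsmul_eq_mul,
            mul_one]
      _ ≤ K := h y
  rw [← h1]
  calc T f x ≤ |T f x| := le_abs_self _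
    _ ≤ ‖T f‖ := by rw [← Real.norm_eq_abs]; exact (T f).norm_coe_le_norm x
    _ ≤ ‖T‖ * ‖f‖ := T.le_opNorm f
    _ ≤ ‖T‖ * K := by gcongr

/-- disjoint clopen sets -/
theorem sum_ind_disj {L X ι : Type} [TopologicalSpace L] [CompactSpace L] [TopologicalSpace X]
    [CompactSpace X] (T : C(L, ℝ) →L[ℝ] C(X, ℝ)) (W : ι → Clopens L) (A : Finset ι)
    (h : ∀ c ∈ A, ∀ c' ∈ A, c ≠ c' → ∀ y, y ∈ W c → y ∉ W c') (x : X) :
    ∑ c ∈ A, |T (ind (W c)) x| ≤ ‖T‖ := by
  have := sum_ind_le T W A 1 zero_le_one (fun y => by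
    have h1 : (A.filter (fun c => y ∈ W c)).card ≤ 1 := by
      rw [Finset.card_le_one]
      intro a ha b hb
      rw [Finset.mem_filter] at ha hb
      by_contra hne
      exact h a ha.1 b hb.1 hne y ha.2 hb.2
    exact_mod_cast h1) x
  rwa [mul_one] at this

end Pool.Agent.W991.BH
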