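import Mathlib
import Pool.Agent.W683.BH.Stmts
import Pool.Agent.W991.BH.Sgn
import Pool.Agent.W991.BH.Free

/-! BH-ATOM: existence of atoms. -/

set_option autoImplicit false

namespace Pool.Agent.W991.BH

open Set Filter Topology Cardinal TopologicalSpace
open Pool.Agent.W683.BH
open scoped Classical

/-- the configuration coded by a list -/
noncomputable def gl {κ : Type} {N : Set κ} (l : List (↥N × ℕ)) : Finset (κ × ℕ) :=
  (l.map fun u => ((u.1 : κ), u.2)).toFinset

theorem gl_mem {κ : Type} {N : Set κ} (l : List (↥N × ℕ)) : ∀ w ∈ gl l, w.1 ∈ N := by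
  intro w hw
  unfold gl at hw
  rw [List.mem_toFinset, List.mem_map] at hw
  obtain ⟨u, _, rfl⟩ := hw
  exact u.1.2

theorem gl_surj {κ : Type} {N : Set κ} (G : Finset (κ × ℕ)) (hG : ∀ w ∈ G, w.1 ∈ N) :
    ∃ l : List (↥N × ℕ), gl l = G := by
  refine ⟨G.attach.toList.map fun w => (⟨w.1.1, hG w.1 w.2⟩, w.1.2), ?_⟩
  unfold gl
  ext w
  simp only [List.map_map, List.mem_toFinset, List.mem_map, Finset.mem_toList,
    Finset.mem_attach, true_and, Function.comp]
  constructor
  · rintro ⟨u, rfl⟩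
    exact u.2
  · intro hw
    exact ⟨⟨w, hw⟩, rfl⟩

/-- the function coded by a list -/
noncomputable def vl {κ : Type} {C : Set κ} (l : List (↥C × ℚ)) (γ : κ) : ℝ :=
  (l.map fun u => if (u.1 : κ) = γ then (u.2 : ℝ) else 0).sum

theorem vl_surj {κ : Type} {C : Set κ} (I : Finset κ) (hI : ∀ γ ∈ I, γ ∈ C) (q : κ → ℚ) :
    ∃ l : List (↥C × ℚ), ∀ γ, vl l γ = if γ ∈ I then (q γ : ℝ) else 0 := by
  refine ⟨I.attach.toList.map fun w => (⟨w.1, hI w.1 w.2⟩, q w.1), fun γ => ?_⟩
  unfold vl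
  rw [List.map_map]
  have h1 : ((I.attach.toList.map ((fun u : ↥C × ℚ => if (u.1 : κ) = γ then (u.2 : ℝ) else 0) ∘
      fun w : {x // x ∈ I} => ((⟨w.1, hI w.1 w.2⟩ : ↥C), q w.1))).sum : ℝ) =
      ∑ w ∈ I.attach, (if w.1 = γ then (q w.1 : ℝ) else 0) :=
    Finset.sum_map_toList I.attach _
  rw [h1, Finset.sum_attach I (fun w => if w = γ then (q w : ℝ) else 0), Finset.sum_ite_eq']

theorem rat_approx (t : ℝ) (s : Set ℝ) (hs : s ∈ 𝓝 t) : ∃ q : ℚ, |(q : ℝ)| ≤ |t| ∧ (q : ℝ) ∈ s := by
  obtain ⟨δ, hδ, hb⟩ := Metric.mem_nhds_iff.1 hs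
  rcases lt_trichotomy t 0 with h | h | h
  · obtain ⟨q, hq1, hq2⟩ := exists_rat_btwn (show t < min 0 (t + δ) from lt_min h (by linarith))
    refine ⟨q, ?_, hb ?_⟩
    · have h3 : (q : ℝ) < 0 := lt_of_lt_of_le hq2 (min_le_left _ _)
      rw [abs_of_neg h, abs_of_neg h3]
      linarith
    · rw [Metric.mem_ball, Real.dist_eq, abs_lt]
      have h3 : (q : ℝ) < t + δ := lt_of_lt_of_le hq2 (min_le_right _ _)
      constructor <;> linarith
  · refine ⟨0, by simp, hb ?_⟩
    rw [h]
    simpa using hδ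
  · obtain ⟨q, hq1, hq2⟩ := exists_rat_btwn (show max 0 (t - δ) < t from max_lt h (by linarith))
    refine ⟨q, ?_, hb ?_⟩
    · have h3 : (0 : ℝ) < q := lt_of_le_of_lt (le_max_left _ _) hq1
      rw [abs_of_pos h, abs_of_pos h3]
      linarith
    · rw [Metric.mem_ball, Real.dist_eq, abs_lt]
      have h3 : t - δ < (q : ℝ) := lt_of_le_of_lt (le_max_right _ _) hq1
      constructor <;> linarith

/-- a continuous function which vanishes on the coded points vanishes at all points supported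
by `C` -/
theorem dense_zero {κ : Type} (C : Set κ) (φ : C(U κ, ℝ))
    (h : ∀ (z : U κ) (l : List (↥C × ℚ)), z.1 = vl l → φ z = 0) (x : U κ)
    (hx : ∀ γ, γ ∉ C → x.1 γ = 0) : φ x = 0 := by
  have hcl : x ∈ closure {z : U κ | ∃ l : List (↥C × ℚ), z.1 = vl l} := by
    rw [mem_closure_iff_nhds]
    intro t ht
    obtain ⟨u, hu, hut⟩ := mem_nhds_subtype (UB κ) x t |>.1 ht
    rw [nhds_pi, Filter.mem_pi] at hu
    obtain ⟨I, hI, s, hs, hIs⟩ := hu
    choose q hq1 hq2 using fun γ => rat_approx (x.1 γ) (s γ) (hs γ)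
    obtain ⟨y, hy⟩ : ∃ y : κ → ℝ, y = fun γ => if γ ∈ I then (q γ : ℝ) else 0 := ⟨_, rfl⟩
    have hle : ∀ γ, |y γ| ≤ |x.1 γ| := by
      intro γ
      rw [hy]
      simp only
      split_ifs
      · exact hq1 γ
      · simp
    have hyU : y ∈ UB κ := by
      intro A
      refine le_trans (Finset.sum_le_sum fun γ _ => ?_) (x.2 A)
      exact sq_le_sq.2 (hle γ)
    refine ⟨⟨y, hyU⟩, hut ?_, ?_⟩
    · refine hIs ?_
      intro γ hγ
      simp only [hy, if_pos hγ]
      exact hq2 γ
    · obtain ⟨l, hl⟩ := vl_surj (C := C) (hI.toFinset.filter (fun γ => γ ∈ C))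
        (fun γ hγ => (Finset.mem_filter.1 hγ).2) q
      refine ⟨l, ?_⟩
      funext γ
      rw [hl]
      change y γ = _
      rw [hy]
      simp only [Finset.mem_filter, Finite.mem_toFinset]
      by_cases h1 : γ ∈ I
      · by_cases h2 : γ ∈ C
        · simp [h1, h2]
        · have h3 := hq1 γ
          rw [hx γ h2] at h3
          have h4 : (q γ : ℝ) = 0 := by simpa using h3
          simp [h1, h2, h4]
      · simp [h1]
  have hclosed : IsClosed {z : U κ | φ z = 0} := isClosed_eq φ.continuous continuous_const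
  have hsub : {z : U κ | ∃ l : List (↥C × ℚ), z.1 = vl l} ⊆ {z : U κ | φ z = 0} := by
    rintro z ⟨l, hl⟩
    exact h z l hl
  exact hclosed.closure_subset_iff.2 hsub hcl

theorem atm_update {κ : Type} {r : ℕ} (α α' : Fin r → κ) (i : Fin r)
    (h : ∀ q, q ≠ i → α q = α' q) (J : Finset (Fin r)) (hJ : i ∉ J) : atm α J = atm α' J := by
  unfold atm
  refine Finset.image_congr fun q hq => ?_
  have : q ≠ i := fun h' => hJ (h' ▸ hq)
  simp only [h q this]

theorem card_list {ι : Type} {lam : Cardinal.{0}} (hlam : ℵ₀ ≤ lam) (h : #ι ≤ lam) :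
    #(List ι) ≤ lam := (mk_list_le_max ι).trans (max_le hlam h)

theorem card_prod_le {ι ι' : Type} {lam : Cardinal.{0}} (hlam : ℵ₀ ≤ lam) (h : #ι ≤ lam)
    (h' : #ι' ≤ lam) : #(ι × ι') ≤ lam := by
  rw [mk_prod, lift_id, lift_id]
  exact mul_le_of_le hlam h h'

theorem card_count {ι : Type} [Countable ι] {lam : Cardinal.{0}} (hlam : ℵ₀ ≤ lam) :
    #ι ≤ lam := (Cardinal.mk_le_aleph0).trans hlam

theorem union_le' {κ : Type} {S T : Set κ} {lam : Cardinal.{0}} (hlam : ℵ₀ ≤ lam) (hS : #S ≤ lam)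
    (hT : #T ≤ lam) : #↥(S ∪ T) ≤ lam := (mk_union_le _ _).trans (add_le_of_le hlam hS hT)

theorem atom : T_ATOM := by
  intro hDEP hFREE κ L _ _ _ _ T s N lam r hlam hN hr
  choose sp hsp1 hsp2 using hDEP κ
  -- the supports
  obtain ⟨Cf, hCf⟩ : ∃ Cf : Fin r → (Fin r → κ) → Set κ, Cf = fun i a =>
    ((N ∪ {γ | ∃ q, q ≠ i ∧ a q = γ}) ∪ (s.g : Set κ)) ∪
      ⋃ Q : List (↥N × ℕ) × Finset (Fin r), (if i ∈ Q.2 then (∅ : Set κ) else
        sp (T (ind (VF s.V (gl Q.1 ∪ atm a Q.2))))) := ⟨_, rfl⟩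
  have hCfc : ∀ i a, #(Cf i a) ≤ lam := by
    intro i a
    rw [hCf]
    refine union_le' hlam (union_le' hlam (union_le' hlam hN ?_) ?_) ?_
    · refine (le_aleph0_iff_set_countable.2 ?_).trans hlam
      refine (Set.finite_range a).countable.mono ?_
      rintro γ ⟨q, _, hq⟩
      exact ⟨q, hq⟩
    · exact (le_aleph0_iff_set_countable.2 (Finset.countable_toSet _)).trans hlam
    · refine iUnion_le hlam (card_prod_le hlam (card_list hlam (card_prod_le hlam hN
        (card_count hlam))) (card_count hlam)) _ fun Q => ?_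
      split_ifs
      · exact (le_aleph0_iff_set_countable.2 countable_empty).trans hlam
      · exact (le_aleph0_iff_set_countable.2 (hsp1 _)).trans hlam
  have hCfi : ∀ i a a', (∀ q, q ≠ i → a q = a' q) → Cf i a = Cf i a' := by
    intro i a a' h
    rw [hCf]
    simp only
    have h1 : {γ | ∃ q, q ≠ i ∧ a q = γ} = {γ | ∃ q, q ≠ i ∧ a' q = γ} := by
      ext γ
      constructor
      · rintro ⟨q, hq, hq'⟩
        exact ⟨q, hq, by rw [← h q hq]; exact hq'⟩
      · rintro ⟨q, hq, hq'⟩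
        exact ⟨q, hq, by rw [h q hq]; exact hq'⟩
    rw [h1]
    congr 1
    refine iUnion_congr fun Q => ?_
    split_ifs with h2
    · rfl
    · rw [atm_update a a' i h Q.2 h2]
  -- the exceptional sets
  obtain ⟨Bf, hBf⟩ : ∃ Bf : Fin r → (Fin r → κ) → Set κ, Bf = fun i a => Cf i a ∪
      ⋃ Q : List (↥N × ℕ) × List (↥(Cf i a) × ℚ), {c | ∃ z : U κ, z.1 = vl Q.2 ∧
        T (ind (VF s.V (gl Q.1 ∪ atm (Function.update a i c) Finset.univ))) z ≠ 0} := ⟨_, rfl⟩
  have hBfc : ∀ i a, #(Bf i a) ≤ lam := by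
    intro i a
    rw [hBf]
    refine union_le' hlam (hCfc i a) ?_
    refine iUnion_le hlam (card_prod_le hlam (card_list hlam (card_prod_le hlam hN
      (card_count hlam))) (card_list hlam (card_prod_le hlam (hCfc i a) (card_count hlam)))) _
      fun Q => ?_
    refine (le_aleph0_iff_set_countable.2 ?_).trans hlam
    by_cases hv : vl Q.2 ∈ UB κ
    · obtain ⟨z, hz⟩ : ∃ z : U κ, z = ⟨vl Q.2, hv⟩ := ⟨_, rfl⟩
      obtain ⟨W, hW⟩ : ∃ W : κ → Clopens L, W = fun c =>
        VF s.V (gl Q.1 ∪ atm (Function.update a i c) Finset.univ) := ⟨_, rfl⟩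
      have hsum : Summable (fun c => |T (ind (W c)) z|) := by
        refine summable_of_sum_le (c := ‖T‖ * (s.Nb i : ℝ)) (fun c => abs_nonneg _) fun A => ?_
        refine sum_ind_le T W A _ (by positivity) (fun y => ?_) z
        have h1 := s.order i y (A.filter (fun c => y ∈ W c)) (fun c hc => by
          have h2 := (Finset.mem_filter.1 hc).2
          rw [hW] at h2
          have h3 := (mem_VF _ _ _).1 h2 (c, (i : ℕ)) (Finset.mem_union_right _ (by
            unfold atm
            rw [Finset.mem_image]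
            exact ⟨i, Finset.mem_univ _, by rw [Function.update_self]⟩))
          exact h3)
        exact_mod_cast h1
      refine (hsum.countable_support).mono ?_
      rintro c ⟨z', hz', hc⟩
      have : z' = z := by rw [hz]; exact Subtype.ext hz'
      rw [this] at hc
      rw [Function.mem_support, hW]
      exact abs_ne_zero.2 hc
    · refine countable_empty.mono ?_
      rintro c ⟨z, hz, _⟩
      exact absurd (hz ▸ z.2) hv
  have hBfi : ∀ i a a', (∀ q, q ≠ i → a q = a' q) → Bf i a = Bf i a' := by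
    intro i a a' h
    rw [hBf]
    simp only
    rw [hCfi i a a' h]
    congr 1
    refine iUnion_congr fun Q => ?_
    ext c
    have h1 : Function.update a i c = Function.update a' i c := by
      funext q
      by_cases hq : q = i
      · subst hq; rw [Function.update_self, Function.update_self]
      · rw [Function.update_of_ne hq, Function.update_of_ne hq, h q hq]
    simp only [mem_setOf_eq, h1]
  obtain ⟨a, ha⟩ := hFREE κ lam r hlam hr Bf hBfc hBfi
  have haC : ∀ i, a i ∉ Cf i a := fun i h => ha i (by rw [hBf]; exact Or.inl h)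
  refine ⟨a, ?_, ?_, fun i => Cf i a, ?_, ?_⟩
  · intro p q hpq
    by_contra hne
    refine haC p ?_
    rw [hCf]
    exact Or.inl (Or.inl (Or.inr ⟨q, fun h => hne h.symm, hpq.symm⟩))
  · intro q
    constructor
    · intro h
      refine haC q ?_
      rw [hCf]
      exact Or.inl (Or.inl (Or.inl h))
    · intro h
      refine haC q ?_
      rw [hCf]
      exact Or.inl (Or.inr h)
  · intro i J hJ G hG
    obtain ⟨l, hl⟩ := gl_surj G hG
    have h1 : sp (T (ind (VF s.V (G ∪ atm a J)))) ⊆ Cf i a := by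
      rw [hCf]
      refine subset_trans ?_ subset_union_right
      refine subset_trans ?_ (subset_iUnion _ (l, J))
      simp only
      rw [if_neg hJ, hl]
    exact fun x y hxy => hsp2 _ x y fun γ hγ => hxy γ (h1 hγ)
  · intro i G hG x hx
    obtain ⟨l, hl⟩ := gl_surj G hG
    refine dense_zero (Cf i a) _ (fun z l' hz => ?_) x hx
    by_contra hne
    refine ha i ?_
    rw [hBf]
    refine Or.inr (mem_iUnion.2 ⟨(l, l'), z, hz, ?_⟩)
    simp only
    rw [hl, Function.update_eq_self]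
    exact hne

end Pool.Agent.W991.BH
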