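import Mathlib
import Pool.Agent.W683.BH.Stmts

/-! BH-CLOS: closing off under a countable-ary operation with small values. -/

set_option autoImplicit false

namespace Pool.Agent.W991.BH

open Set Filter Topology Cardinal TopologicalSpace
open Pool.Agent.W683.BH
open scoped Classical

theorem enum_small {κ : Type} (T : Set κ) (hT : W683.BH.Small T) :
    ∃ g : Option ℝ → Option κ, g none = none ∧ ∀ a ∈ T, ∃ c, g c = some a := by
  have h1 : #T ≤ #ℝ := by rw [mk_real]; exact hT
  obtain ⟨i⟩ := Cardinal.le_def _ _ |>.1 h1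
  refine ⟨fun c => match c with
    | none => none
    | some r => if h : ∃ t : T, i t = r then some h.choose.1 else none, rfl, ?_⟩
  intro a ha
  refine ⟨some (i ⟨a, ha⟩), ?_⟩
  have hex : ∃ t : T, i t = i ⟨a, ha⟩ := ⟨_, rfl⟩
  simp only
  rw [dif_pos hex]
  have := i.injective hex.choose_spec
  rw [this]

/-- children -/
def Ch : Option ℝ ⊕ Option ℝ → Type
  | Sum.inl _ => Empty
  | Sum.inr _ => ℕ

theorem card_tree : #(WType Ch) ≤ 𝔠 := by
  refine WType.cardinalMk_le_of_le' ?_
  have h1 : ∀ a, 𝔠 ^ #(Ch a) ≤ 𝔠 := by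
    intro a
    rcases a with a | a
    · have : #(Ch (Sum.inl a)) = 0 := Cardinal.mk_empty
      rw [this, power_zero]
      exact (one_lt_aleph0.trans_le aleph0_le_continuum).le
    · have : #(Ch (Sum.inr a)) = ℵ₀ := Cardinal.mk_nat
      rw [this, continuum_power_aleph0]
  simp only [lift_id]
  calc (sum fun a => 𝔠 ^ #(Ch a)) ≤ sum fun _ : Option ℝ ⊕ Option ℝ => 𝔠 := sum_le_sum _ _ h1
    _ = #(Option ℝ ⊕ Option ℝ) * 𝔠 := by rw [sum_const, lift_id, lift_id]
    _ ≤ 𝔠 := by
      refine mul_le_of_le aleph0_le_continuum ?_ le_rfl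
      rw [mk_sum]
      simp only [lift_id]
      rw [mk_option, mk_real]
      have : 𝔠 + 1 = 𝔠 := add_one_eq aleph0_le_continuum
      rw [this, add_eq_self aleph0_le_continuum]

theorem clos : T_CLOS := by
  intro κ Op hOp S hS
  obtain ⟨gS, hgS0, hgS⟩ := enum_small S hS
  choose g hg0 hg using fun ρ => enum_small (Op ρ) (hOp ρ)
  obtain ⟨dec, hdec1, hdec2⟩ : ∃ dec : WType Ch → Option κ,
      (∀ (c : Option ℝ) (f : Ch (Sum.inl c) → WType Ch), dec (WType.mk (Sum.inl c) f) = gS c) ∧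
      (∀ (c : Option ℝ) (f : Ch (Sum.inr c) → WType Ch), dec (WType.mk (Sum.inr c) f) =
        g (fun n => dec (f n)) c) :=
    ⟨WType.elim (Option κ) (fun q => match q with
      | ⟨Sum.inl c, _⟩ => gS c
      | ⟨Sum.inr c, ρ⟩ => g ρ c), fun _ _ => rfl, fun _ _ => rfl⟩
  have hleaf : ∀ c, ∃ t, dec t = gS c := fun c => ⟨WType.mk (Sum.inl c) Empty.elim, hdec1 c _⟩
  refine ⟨{a | ∃ t, dec t = some a}, ?_, ?_, ?_⟩
  · intro a ha
    obtain ⟨c, hc⟩ := hgS a ha
    obtain ⟨t, ht⟩ := hleaf c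
    exact ⟨t, by rw [ht, hc]⟩
  · refine le_trans ?_ card_tree
    refine Cardinal.mk_le_of_injective (f := fun a : {a | ∃ t, dec t = some a} =>
      (a.2 : ∃ t, dec t = some a.1).choose) ?_
    intro a b hab
    have h1 := (a.2 : ∃ t, dec t = some a.1).choose_spec
    have h2 := (b.2 : ∃ t, dec t = some b.1).choose_spec
    simp only at hab
    rw [hab, h2] at h1
    exact Subtype.ext (Option.some.inj h1).symm
  · intro ρ hρ a ha
    obtain ⟨c, hc⟩ := hg ρ a ha
    have hch : ∀ n, ∃ t, dec t = ρ n := by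
      intro n
      cases hn : ρ n with
      | none =>
        obtain ⟨t, ht⟩ := hleaf none
        exact ⟨t, by rw [ht, hgS0]⟩
      | some b => exact hρ n b hn
    choose t ht using hch
    refine ⟨WType.mk (Sum.inr c) t, (hdec2 c t).trans ?_⟩
    have : (fun n => dec (t n)) = ρ := funext ht
    exact (congrArg (fun r => g r c) this).trans hc

end Pool.Agent.W991.BH
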