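import Mathlib
import Pool.Agent.W683.BH.Stmts

/-! BH-CODE and BH-CARD. -/

set_option autoImplicit false

namespace Pool.Agent.W991.BH

open Set Filter Topology Cardinal TopologicalSpace
open Pool.Agent.W683.BH
open scoped Classical

/-- extension of a point by zero -/
noncomputable def extU {κ : Type} (e : ℕ → κ) (he : Function.Injective e) : C(U ℕ, U κ) where
  toFun := fun z => ⟨Function.extend e z.1 0, by
    intro A
    have h := Finset.sum_preimage e A he.injOn
      (fun γ => (Function.extend e z.1 0 γ) ^ 2) (fun γ _ hn => by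
        rw [Function.extend_apply' _ _ _ (fun ⟨i, hi⟩ => hn ⟨i, hi⟩)]
        simp)
    rw [← h]
    refine le_trans (le_of_eq ?_) (z.2 (A.preimage e he.injOn))
    refine Finset.sum_congr rfl fun i _ => ?_
    rw [he.extend_apply]⟩
  continuous_toFun := by
    refine Continuous.subtype_mk (continuous_pi fun γ => ?_) _
    by_cases h : ∃ i, e i = γ
    · obtain ⟨i, rfl⟩ := h
      simp only [he.extend_apply]
      exact (continuous_apply i).comp continuous_subtype_val
    · have : ∀ z : U ℕ, Function.extend e z.1 0 γ = 0 := fun z =>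
        Function.extend_apply' _ _ _ h
      simp only [this]
      exact continuous_const

theorem code : T_CODE := by
  intro κ E w e hE
  choose p hp using hE.mem
  refine ⟨⟨p, fun n => (w n).2, fun n => (E.f (Fw w n)).comp (extU e hE.inj),
    fun n => {j | Closed E (Fw w n) j}⟩, ⟨fun n => (hp n).symm, fun n => rfl, ?_, fun n j => Iff.rfl⟩⟩
  intro n z x h1 h2
  simp only [ContinuousMap.comp_apply]
  congr 1
  apply Subtype.ext
  funext γ
  change x.1 γ = Function.extend e z.1 0 γ
  by_cases h : ∃ i, e i = γ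
  · obtain ⟨i, rfl⟩ := h
    rw [hE.inj.extend_apply]
    exact h1 i
  · rw [Function.extend_apply' _ _ _ h]
    exact h2 γ h

theorem card_cont : #(C(U ℕ, ℝ)) ≤ 𝔠 := by
  haveI : Nonempty (U ℕ) := ⟨⟨0, fun A => by simp⟩⟩
  have h1 : #(ℕ → ℝ) = 𝔠 := by
    rw [← Cardinal.power_def, mk_nat, mk_real, continuum_power_aleph0]
  rw [← h1]
  refine Cardinal.mk_le_of_injective (f := fun f : C(U ℕ, ℝ) =>
    fun n => f (denseSeq (U ℕ) n)) ?_
  intro f g hfg
  have h2 := (denseRange_denseSeq (U ℕ)).equalizer f.continuous g.continuous hfg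
  exact ContinuousMap.ext fun x => congrFun h2 x

theorem card : T_CARD := by
  have h1 : #Code ≤ #((ℕ → ℕ) × (ℕ → ℕ) × (ℕ → C(U ℕ, ℝ)) × (ℕ → Set ℕ)) := by
    refine Cardinal.mk_le_of_injective (f := fun c : Code => (c.p, c.k, c.φ, c.cl)) ?_
    rintro ⟨a, b, c, d⟩ ⟨a', b', c', d'⟩ h
    simp only [Prod.mk.injEq] at h
    obtain ⟨rfl, rfl, rfl, rfl⟩ := h
    rfl
  refine h1.trans ?_
  have h2 : #(ℕ → ℕ) ≤ 𝔠 := by
    rw [← Cardinal.power_def, mk_nat]
    exact le_of_eq (aleph0_power_aleph0)
  have h3 : #(ℕ → C(U ℕ, ℝ)) ≤ 𝔠 := by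
    rw [← Cardinal.power_def, mk_nat]
    exact (power_le_power_right card_cont).trans (le_of_eq continuum_power_aleph0)
  have h4 : #(ℕ → Set ℕ) ≤ 𝔠 := by
    rw [← Cardinal.power_def, mk_nat, mk_set, mk_nat, two_power_aleph0]
    exact le_of_eq continuum_power_aleph0
  rw [mk_prod, mk_prod, mk_prod]
  simp only [lift_id]
  exact mul_le_of_le aleph0_le_continuum h2 (mul_le_of_le aleph0_le_continuum h2
    (mul_le_of_le aleph0_le_continuum h3 h4))

end Pool.Agent.W991.BH
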