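import Mathlib
import Pool.Agent.W683.BH.Stmts

/-! BH-TYPE: closed sets of coordinates. -/

set_option autoImplicit false

namespace Pool.Agent.W991.BH

open Set Filter Topology Cardinal TopologicalSpace
open Pool.Agent.W683.BH
open scoped Classical

theorem small_iUnion {κ : Type} {ι : Type} (hι : #ι ≤ 𝔠) (S : ι → Set κ)
    (h : ∀ i, W683.BH.Small (S i)) : W683.BH.Small (⋃ i, S i) :=
  (mk_iUnion_le _).trans (mul_le_of_le aleph0_le_continuum hι (ciSup_le' h))

theorem small_union {κ : Type} {S T : Set κ} (hS : W683.BH.Small S) (hT : W683.BH.Small T) : W683.BH.Small (S ∪ T) :=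
  (mk_union_le _ _).trans (add_le_of_le aleph0_le_continuum hS hT)

theorem small_countable {κ : Type} {S : Set κ} (hS : S.Countable) : W683.BH.Small S :=
  (le_aleph0_iff_set_countable.2 hS).trans aleph0_le_continuum

theorem small_empty {κ : Type} : W683.BH.Small (∅ : Set κ) := small_countable countable_empty

theorem small_mono {κ : Type} {S T : Set κ} (h : S ⊆ T) (hT : W683.BH.Small T) : W683.BH.Small S :=
  (mk_le_mk_of_subset h).trans hT

/-- decoding of lists of indices -/
def dec {κ : Type} (ρ : ℕ → Option κ) (L : List (ℕ × ℕ)) : List (κ × ℕ) :=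
  L.filterMap (fun q => (ρ q.1).map (fun a => (a, q.2)))

theorem dec_surj {κ : Type} (ρ : ℕ → Option κ) (l : List (κ × ℕ))
    (h : ∀ u ∈ l, ∃ i, ρ i = some u.1) : ∃ L, dec ρ L = l := by
  induction l with
  | nil => exact ⟨[], rfl⟩
  | cons u l ih =>
    obtain ⟨L, hL⟩ := ih fun v hv => h v (List.mem_cons_of_mem _ hv)
    obtain ⟨i, hi⟩ := h u List.mem_cons_self
    refine ⟨(i, u.2) :: L, ?_⟩
    unfold dec at *
    rw [List.filterMap_cons, hL]
    simp [hi]

/-- a common enumeration of the coordinates of a list -/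
def enl {κ : Type} (l : List (κ × ℕ)) (i : ℕ) : Option κ := (l[i]?).map Prod.fst

theorem enl_mem {κ : Type} (l : List (κ × ℕ)) (u : κ × ℕ) (hu : u ∈ l) :
    ∃ i, enl l i = some u.1 := by
  obtain ⟨i, hi⟩ := List.mem_iff_getElem?.1 hu
  exact ⟨i, by unfold enl; rw [hi]; rfl⟩

theorem enl_sub {κ : Type} (l : List (κ × ℕ)) (M : Set κ) (h : ∀ u ∈ l, u.1 ∈ M) (i : ℕ) (a : κ)
    (hi : enl l i = some a) : a ∈ M := by
  unfold enl at hi
  rw [Option.map_eq_some_iff] at hi
  obtain ⟨u, hu, rfl⟩ := hi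
  exact h u (List.mem_iff_getElem?.2 ⟨i, hu⟩)

/-- a configuration with the code `c` and the trace `ρ` exists outside `S` -/
def Good {κ : Type} (E : TE κ) (D : Finset (κ × ℕ) → List (κ × ℕ) → Set κ) (ρ : ℕ → Option κ)
    (c : Code) (n₀ : ℕ) (S : Set κ) : Prop :=
  ∃ (w : ℕ → κ × ℕ) (e : ℕ → κ), IsEn E w e ∧ HasCode E w e c ∧
    (∀ i a, ρ i = some a → e i = a) ∧ (∀ i, ρ i = none → e i ∉ S) ∧ Gen E D S n₀ w

theorem gen_anti {κ : Type} {E : TE κ} {D : Finset (κ × ℕ) → List (κ × ℕ) → Set κ}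
    {S S' : Set κ} {n₀ : ℕ} {w : ℕ → κ × ℕ} (h : S ⊆ S') (hg : Gen E D S' n₀ w) :
    Gen E D S n₀ w := by
  refine ⟨hg.mem, fun n hn h' => hg.out n hn (h h'), fun F hF hB n => hg.gen F (fun u hu => ?_) hB n⟩
  rcases hF u hu with h1 | h1
  · exact Or.inl (h h1)
  · exact Or.inr h1

theorem typ : T_TYPE := by
  intro hClos hCard κ E D hK
  -- supports
  choose Sp hSp1 hSp2 using E.dep
  -- the limits
  have hLi : ∀ (ρ : ℕ → Option κ) (c : Code) (n₀ : ℕ), ∃ S : Set κ, W683.BH.Small S ∧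
      ((∃ S, W683.BH.Small S ∧ ¬ Good E D ρ c n₀ S) → ¬ Good E D ρ c n₀ S) := by
    intro ρ c n₀
    by_cases h : ∃ S, W683.BH.Small S ∧ ¬ Good E D ρ c n₀ S
    · obtain ⟨S, h1, h2⟩ := h
      exact ⟨S, h1, fun _ => h2⟩
    · exact ⟨∅, small_empty, fun h' => absurd h' h⟩
  choose Li hLi1 hLi2 using hLi
  obtain ⟨Op, hOp⟩ : ∃ Op : (ℕ → Option κ) → Set κ, Op = fun ρ =>
    ((⋃ L : List (ℕ × ℕ), Sp (dec ρ L).toFinset) ∪
      (⋃ Q : List (ℕ × ℕ) × List (ℕ × ℕ), D (dec ρ Q.1).toFinset (dec ρ Q.2))) ∪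
      ⋃ Q : Code × ℕ, Li ρ Q.1 Q.2 := ⟨_, rfl⟩
  have hOps : ∀ ρ, W683.BH.Small (Op ρ) := by
    intro ρ
    rw [hOp]
    refine small_union (small_union (small_iUnion ?_ _ fun L => small_countable (hSp1 _))
      (small_iUnion ?_ _ fun Q => hK.small _ _)) (small_iUnion ?_ _ fun Q => hLi1 _ _ _)
    · exact (Cardinal.mk_le_aleph0).trans aleph0_le_continuum
    · exact (Cardinal.mk_le_aleph0).trans aleph0_le_continuum
    · rw [Cardinal.mk_prod, lift_id, lift_id]
      exact mul_le_of_le aleph0_le_continuum hCard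
        ((Cardinal.mk_le_aleph0).trans aleph0_le_continuum)
  refine ⟨fun M => ∀ ρ : ℕ → Option κ, (∀ n a, ρ n = some a → a ∈ M) → Op ρ ⊆ M, ?_, ?_, ?_, ?_⟩
  · intro S hS
    exact hClos κ Op hOps S hS
  · intro M hM F hF
    obtain ⟨L, hL⟩ := dec_surj (enl F.toList) F.toList fun u hu => enl_mem _ u hu
    have h1 := hM (enl F.toList) fun n a h => enl_sub _ M (fun u hu => hF u
      (Finset.mem_toList.1 hu)) n a h
    have h2 : Sp F ⊆ M := by
      refine subset_trans ?_ h1
      rw [hOp]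
      refine subset_trans ?_ (subset_union_left.trans subset_union_left)
      refine subset_trans ?_ (subset_iUnion _ L)
      rw [hL, Finset.toList_toFinset]
    exact fun x y hxy => hSp2 F x y fun γ hγ => hxy γ (h2 hγ)
  · intro M hM F hF l hl
    have hmem : ∀ u ∈ F.toList ++ l, u.1 ∈ M := by
      intro u hu
      rcases List.mem_append.1 hu with h | h
      · exact hF u (Finset.mem_toList.1 h)
      · exact hl u h
    obtain ⟨L, hL⟩ := dec_surj (enl (F.toList ++ l)) F.toList fun u hu =>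
      enl_mem _ u (List.mem_append_left _ hu)
    obtain ⟨L', hL'⟩ := dec_surj (enl (F.toList ++ l)) l fun u hu =>
      enl_mem _ u (List.mem_append_right _ hu)
    have h1 := hM (enl (F.toList ++ l)) fun n a h => enl_sub _ M hmem n a h
    refine subset_trans ?_ h1
    rw [hOp]
    refine subset_trans ?_ (subset_union_right.trans subset_union_left)
    refine subset_trans ?_ (subset_iUnion _ (L, L'))
    simp only
    rw [hL, hL', Finset.toList_toFinset]
  · intro M hM n₀ w e c hE hc hg S hS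
    obtain ⟨ρ, hρ⟩ : ∃ ρ : ℕ → Option κ, ρ = fun i => if e i ∈ M then some (e i) else none :=
      ⟨_, rfl⟩
    have hρ1 : ∀ i a, ρ i = some a → e i = a ∧ a ∈ M := by
      intro i a h
      rw [hρ] at h
      simp only at h
      split_ifs at h with h1
      have h2 : e i = a := by simpa using h
      exact ⟨h2, h2 ▸ h1⟩
    have hρ2 : ∀ i, ρ i = none → e i ∉ M := by
      intro i h
      rw [hρ] at h
      simp only at h
      split_ifs at h with h1
      exact h1
    have h1 := hM ρ fun n a h => (hρ1 n a h).2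
    have hgood : Good E D ρ c n₀ S := by
      by_contra hcon
      have h2 : Li ρ c n₀ ⊆ M := by
        refine subset_trans ?_ h1
        rw [hOp]
        refine subset_trans ?_ subset_union_right
        exact subset_iUnion (fun Q : Code × ℕ => Li ρ Q.1 Q.2) (c, n₀)
      exact hLi2 ρ c n₀ ⟨S, hS, hcon⟩ ⟨w, e, hE, hc, fun i a h => (hρ1 i a h).1,
        fun i h h' => hρ2 i h (h2 h'), gen_anti h2 hg⟩
    obtain ⟨w', e', g1, g2, g3, g4, g5⟩ := hgood
    refine ⟨w', e', g1, g2, ?_, ?_, g5⟩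
    · intro i hi
      exact g3 i (e i) (by rw [hρ]; simp [hi])
    · intro i hi
      exact g4 i (by rw [hρ]; simp [hi])

end Pool.Agent.W991.BH
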