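import Mathlib
import Pool.Agent.W683.BH.Stmts
import Pool.Agent.W991.BH.Typ

/-! BH-COPY: pairwise incompatible copies of a play. -/

set_option autoImplicit false

namespace Pool.Agent.W991.BH

open Set Filter Topology Cardinal TopologicalSpace
open Pool.Agent.W683.BH
open scoped Classical

theorem mem_Fw {κ : Type} (w : ℕ → κ × ℕ) (n : ℕ) (u : κ × ℕ) :
    u ∈ Fw w n ↔ ∃ m < n, w m = u := by
  unfold Fw
  simp [Finset.mem_image]

theorem copy : T_COPY := by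
  intro hCode κ E D Clo w A e hK hC hP hE hG n₀ m
  obtain ⟨c, hc⟩ := hCode κ E w e hE
  obtain ⟨n₁, hn₁, hcl⟩ := hP.closed n₀
  obtain ⟨B, hB⟩ : ∃ B, B = A n₀ := ⟨_, rfl⟩
  have hBs : W683.BH.Small B := by rw [hB]; exact hP.small n₀
  have hGB : Gen E D B n₀ w := by rw [hB]; exact hG n₀
  have hCB : Clo B := by rw [hB]; exact hP.clo n₀
  rw [← hB]
  obtain ⟨f, hf1, hf2⟩ := exists_seq_of_forall_finset_exists
    (α := (ℕ → κ × ℕ) × (ℕ → κ))
    (fun x => IsEn E x.1 x.2 ∧ HasCode E x.1 x.2 c ∧ (∀ i, e i ∈ B → x.2 i = e i) ∧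
      (∀ i, e i ∉ B → x.2 i ∉ B))
    (fun x y => (∀ i, e i ∉ B → y.2 i ∉ range x.2) ∧ ∃ n, ∀ n', n ≤ n' →
      Fw x.1 n' ≠ Fw y.1 n' ∧ ¬ E.P (Fw x.1 n' ∪ Fw y.1 n')) (by
    intro s hs
    have hT : ∀ x : (ℕ → κ × ℕ) × (ℕ → κ), x ∈ s → ∃ T : Set κ, W683.BH.Small T ∧
        range x.2 ⊆ T ∧ ∀ u : κ × ℕ, u.1 ∈ E.N → u.1 ∉ T → u.2 = (w n₀).2 →
          Bad E (insert u (Fw x.1 n₁)) := by
      intro x hx
      have h1 : Closed E (Fw x.1 n₁) (w n₀).2 :=
        ((hs x hx).2.1.hcl n₁ _).2 ((hc.hcl n₁ _).1 hcl)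
      obtain ⟨S', h2, h3⟩ := h1
      refine ⟨range x.2 ∪ S', small_union (small_countable (countable_range _)) h2,
        subset_union_left, fun u hu1 hu2 hu3 => h3 u hu1 (fun h => hu2 (Or.inr h)) hu3⟩
    choose! T hT1 hT2 hT3 using hT
    obtain ⟨S, hS⟩ : ∃ S : Set κ, S = B ∪ ⋃ x : s, T x.1 := ⟨_, rfl⟩
    have hSs : W683.BH.Small S := by
      rw [hS]
      refine small_union hBs (small_iUnion ?_ _ fun x => hT1 x.1 x.2)
      exact (Cardinal.mk_le_aleph0).trans aleph0_le_continuum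
    have hTS : ∀ x ∈ s, T x ⊆ S := by
      intro x hx
      rw [hS]
      exact (subset_iUnion (fun x : s => T x.1) ⟨x, hx⟩).trans subset_union_right
    obtain ⟨w', e', g1, g2, g3, g4, g5⟩ := hC.copy B hCB n₀ w e c hE hc hGB S hSs
    refine ⟨(w', e'), ⟨g1, g2, g3, fun i hi h => g4 i hi (by rw [hS]; exact Or.inl h)⟩, ?_⟩
    intro x hx
    refine ⟨fun i hi h => g4 i hi (hTS x hx (hT2 x hx h)), ?_⟩
    -- incompatibility
    have hout : (w' n₀).1 ∉ S := g5.out n₀ le_rfl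
    have hbad : Bad E (insert (w' n₀) (Fw x.1 n₁)) := by
      refine hT3 x hx (w' n₀) (g5.mem n₀) (fun h => hout (hTS x hx h)) ?_
      rw [g2.hk n₀, hc.hk n₀]
    obtain ⟨v, hv⟩ : ∃ v : ℕ → κ × ℕ, v = fun i => w' (n₀ + 1 + i) := ⟨_, rfl⟩
    have hgen := g5.gen (insert (w' n₀) (Fw x.1 n₁)) (by
      intro u hu
      rcases Finset.mem_insert.1 hu with h | h
      · exact Or.inr ⟨n₀, le_rfl, by rw [h]⟩
      · left
        obtain ⟨k, _, rfl⟩ := (mem_Fw _ _ _).1 h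
        exact hTS x hx (hT2 x hx ((hs x hx).1.mem k))) hbad
    obtain ⟨n, hn⟩ := hK.kill _ hbad v (fun n => by rw [hv]; exact g5.mem _) (fun n => by
      rw [hv]; exact hgen n)
    refine ⟨max n₁ (n₀ + 1 + n), fun n' hn' => ?_⟩
    have hn1 : n₁ ≤ n' := (le_max_left _ _).trans hn'
    have hn2 : n₀ + 1 + n ≤ n' := (le_max_right _ _).trans hn'
    have hmemy : w' n₀ ∈ Fw w' n' := (mem_Fw _ _ _).2 ⟨n₀, by omega, rfl⟩
    constructor
    · intro heq
      simp only at heq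
      rw [← heq] at hmemy
      obtain ⟨k, _, hk⟩ := (mem_Fw _ _ _).1 hmemy
      refine hout (hTS x hx (hT2 x hx ?_))
      rw [← hk]
      exact (hs x hx).1.mem k
    · intro hPP
      refine hn (E.anti _ _ ?_ hPP)
      intro u hu
      rcases Finset.mem_union.1 hu with h | h
      · rcases Finset.mem_insert.1 h with h | h
        · rw [h]
          exact Finset.mem_union_right _ hmemy
        · obtain ⟨k, hk, rfl⟩ := (mem_Fw _ _ _).1 h
          exact Finset.mem_union_left _ ((mem_Fw _ _ _).2 ⟨k, by omega, rfl⟩)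
      · obtain ⟨k, hk, rfl⟩ := (mem_Fw _ _ _).1 h
        refine Finset.mem_union_right _ ((mem_Fw _ _ _).2 ⟨n₀ + 1 + k, by omega, ?_⟩)
        rw [hv])
  refine ⟨fun l => (f l).1, fun l => (f l).2, c, hc, fun l => (hf1 l).1, fun l => (hf1 l).2.1,
    fun l => (hf1 l).2.2.1, fun l => (hf1 l).2.2.2, ?_, ?_⟩
  · intro l l' i i' hl hi hi' heq
    have hne : (l : ℕ) ≠ l' := fun h => hl (Fin.ext h)
    rcases lt_or_gt_of_ne hne with h | h
    · exact (hf2 _ _ h).1 i' hi' ⟨i, heq⟩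
    · exact (hf2 _ _ h).1 i hi ⟨i', heq.symm⟩
  · intro l l' hl
    have hne : (l : ℕ) ≠ l' := fun h => hl (Fin.ext h)
    rcases lt_or_gt_of_ne hne with h | h
    · exact (hf2 _ _ h).2
    · obtain ⟨n, hn⟩ := (hf2 _ _ h).2
      refine ⟨n, fun n' hn' => ⟨(hn n' hn').1.symm, ?_⟩⟩
      rw [Finset.union_comm]
      exact (hn n' hn').2

end Pool.Agent.W991.BH
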