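import Mathlib
import Pool.Agent.W683.BH.Stmts

/-! BH-ENUM: enumeration of the relevant coordinates of a play. -/

set_option autoImplicit false

namespace Pool.Agent.W991.BH

open Set Filter Topology Cardinal TopologicalSpace
open Pool.Agent.W683.BH
open scoped Classical

theorem dep_mono {κ : Type} {f : C(U κ, ℝ)} {C C' : Set κ} (h : C ⊆ C') (hd : Dep f C) :
    Dep f C' := fun x y hxy => hd x y fun γ hγ => hxy γ (h hγ)

theorem dep_inter {κ : Type} {f : C(U κ, ℝ)} {C C' : Set κ} (h : Dep f C) (h' : Dep f C') :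
    Dep f (C ∩ C') := by
  intro x y hxy
  have key : ∀ z : U κ, f z = f (restr z (C ∩ C')) := by
    intro z
    have h1 : f z = f (restr z C) := h _ _ fun γ hγ => by
      simp [restr, hγ]
    have h2 : f (restr z C) = f (restr z (C ∩ C')) := h' _ _ fun γ hγ => by
      by_cases hc : γ ∈ C
      · have : γ ∈ C ∩ C' := ⟨hc, hγ⟩
        simp [restr, hc, this]
      · have : γ ∉ C ∩ C' := fun h => hc h.1
        simp [restr, hc]
    rw [h1, h2]
  rw [key x, key y]
  congr 1
  apply Subtype.ext
  funext γ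
  by_cases hγ : γ ∈ C ∩ C'
  · simp only [restr, indicator_of_mem hγ]
    exact hxy γ hγ
  · simp only [restr, indicator_of_notMem hγ]

theorem enum : T_ENUM := by
  intro κ E D Clo w A hC hP
  have hmono : ∀ m n, m ≤ n → A m ⊆ A n := by
    intro m n hmn
    induction hmn with
    | refl => exact subset_rfl
    | step _ ih => exact ih.trans (hP.incr _)
  have hlt : ∀ m n, m < n → (w m).1 ∈ A n := fun m n hmn => hmono (m + 1) n hmn (hP.mem m)
  have hinj : Function.Injective (fun n => (w n).1) := by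
    intro m n hmn
    simp only at hmn
    by_contra hne
    rcases lt_or_gt_of_ne hne with h | h
    · exact hP.out n (by rw [← hmn]; exact hlt m n h)
    · exact hP.out m (by rw [hmn]; exact hlt n m h)
  have hdepA : ∀ n, Dep (E.f (Fw w n)) (A n) := by
    intro n
    refine hC.dep (A n) (hP.clo n) (Fw w n) fun u hu => ?_
    unfold Fw at hu
    rw [Finset.mem_image] at hu
    obtain ⟨m, hm, rfl⟩ := hu
    exact hlt m n (Finset.mem_range.1 hm)
  choose Cn hCn1 hCn2 using fun n => E.dep (Fw w n)
  obtain ⟨R, hR⟩ : ∃ R : Set κ, R = range (fun n => (w n).1) ∪ ⋃ n, (Cn n ∩ A n) := ⟨_, rfl⟩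
  have hRc : R.Countable := by
    rw [hR]
    exact (countable_range _).union (countable_iUnion fun n => (hCn1 n).mono inter_subset_left)
  have hRi : R.Infinite := by
    rw [hR]
    exact (infinite_range_of_injective hinj).mono subset_union_left
  haveI : Countable R := hRc.to_subtype
  haveI : Infinite R := hRi.to_subtype
  obtain ⟨φ⟩ : Nonempty (ℕ ≃ R) := by
    haveI := Classical.choice (nonempty_denumerable R)
    exact ⟨(Denumerable.eqv R).symm⟩
  refine ⟨fun i => (φ i).1, ⟨?_, ?_, ?_⟩, ?_, ?_⟩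
  · intro i j hij
    exact φ.injective (Subtype.ext hij)
  · intro n
    have h1 : (w n).1 ∈ R := by rw [hR]; exact Or.inl ⟨n, rfl⟩
    exact ⟨φ.symm ⟨_, h1⟩, by simp⟩
  · intro n
    refine dep_mono ?_ (dep_inter (hCn2 n) (hdepA n))
    intro γ hγ
    have h1 : γ ∈ R := by rw [hR]; exact Or.inr (mem_iUnion.2 ⟨n, hγ⟩)
    exact ⟨φ.symm ⟨_, h1⟩, by simp⟩
  · intro i
    have h1 := hR.subset (φ i).2
    rcases h1 with h1 | h1
    · obtain ⟨n, hn⟩ := h1
      exact ⟨n + 1, by simp only; rw [← hn]; exact hP.mem n⟩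
    · obtain ⟨n, hn⟩ := mem_iUnion.1 h1
      exact ⟨n, hn.2⟩
  · intro n₀
    refine ⟨hP.memN, ?_, ?_⟩
    · intro n hn h
      exact hP.out n (hmono n₀ n hn h)
    · intro F hF hB n h
      refine hP.out (n₀ + 1 + n) ?_
      refine hC.clD (A (n₀ + 1 + n)) (hP.clo _) F ?_ _ ?_ h
      · intro u hu
        rcases hF u hu with h1 | ⟨i, hi, h1⟩
        · exact hmono n₀ _ (by omega) h1
        · rw [h1]
          exact hlt i _ (by omega)
      · intro u hu
        rw [List.mem_map] at hu
        obtain ⟨i, hi, rfl⟩ := hu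
        rw [List.mem_range] at hi
        exact hlt _ _ (by omega)

end Pool.Agent.W991.BH
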