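import Mathlib
import Pool.Agent.W683.BH.Stmts
import Pool.Agent.W991.BH.Copy

/-! BH-P1: the values of the functions along a play converge to zero at points with room. -/

set_option autoImplicit false

namespace Pool.Agent.W991.BH

open Set Filter Topology Cardinal TopologicalSpace
open Pool.Agent.W683.BH
open scoped Classical

theorem Fw_mono {κ : Type} (w : ℕ → κ × ℕ) : Monotone (Fw w) := by
  intro m n hmn u hu
  obtain ⟨k, hk, rfl⟩ := (mem_Fw _ _ _).1 hu
  exact (mem_Fw _ _ _).2 ⟨k, by omega, rfl⟩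

/-- the value at `x` is the value of the code -/
theorem val_code {κ : Type} {E : TE κ} {w : ℕ → κ × ℕ} {e : ℕ → κ} {c : Code}
    (hE : IsEn E w e) (hc : HasCode E w e c) (x : U κ) (z : U ℕ) (h : ∀ i, x.1 (e i) = z.1 i)
    (n : ℕ) : E.f (Fw w n) x = c.φ n z := by
  have h1 : E.f (Fw w n) x = E.f (Fw w n) (restr x (range e)) := hE.dep n _ _ fun γ hγ => by
    simp only [restr, indicator_of_mem hγ]
  rw [h1]
  refine hc.hφ n z _ (fun i => ?_) fun γ hγ => ?_
  · simp only [restr, indicator_of_mem (mem_range_self i)]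
    exact h i
  · simp only [restr, indicator_of_notMem hγ]

/-- the amalgamated point -/
noncomputable def amal {κ : Type} {m : ℕ} (x : κ → ℝ) (B : Set κ) (e : ℕ → κ)
    (e' : Fin m → ℕ → κ) (γ : κ) : ℝ :=
  if γ ∈ B then (if γ ∈ range e then x γ else 0) else
    if h : ∃ q : Fin m × ℕ, e q.2 ∉ B ∧ e' q.1 q.2 = γ then x (e h.choose.2) else 0

theorem amal_copy {κ : Type} {m : ℕ} (x : κ → ℝ) (B : Set κ) (e : ℕ → κ)
    (e' : Fin m → ℕ → κ) (hinj : ∀ l, Function.Injective (e' l))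
    (h1 : ∀ l i, e i ∈ B → e' l i = e i) (h2 : ∀ l i, e i ∉ B → e' l i ∉ B)
    (h3 : ∀ l l' i i', l ≠ l' → e i ∉ B → e i' ∉ B → e' l i ≠ e' l' i') (l : Fin m) (i : ℕ) :
    amal x B e e' (e' l i) = x (e i) := by
  unfold amal
  by_cases hi : e i ∈ B
  · rw [h1 l i hi, if_pos hi, if_pos (mem_range_self i)]
  · rw [if_neg (h2 l i hi)]
    have hex : ∃ q : Fin m × ℕ, e q.2 ∉ B ∧ e' q.1 q.2 = e' l i := ⟨(l, i), hi, rfl⟩
    rw [dif_pos hex]
    have h4 := hex.choose_spec
    have h5 : hex.choose.1 = l := by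
      by_contra hne
      exact h3 _ _ _ _ hne h4.1 hi h4.2
    have h6 : hex.choose.2 = i := by
      have := h4.2
      rw [h5] at this
      exact hinj l this
    rw [h6]

theorem amal_mem {κ : Type} {m : ℕ} (x : κ → ℝ) (B : Set κ) (e : ℕ → κ)
    (e' : Fin m → ℕ → κ) (hinj : ∀ l, Function.Injective (e' l))
    (h1 : ∀ l i, e i ∈ B → e' l i = e i) (h2 : ∀ l i, e i ∉ B → e' l i ∉ B)
    (h3 : ∀ l l' i i', l ≠ l' → e i ∉ B → e i' ∉ B → e' l i ≠ e' l' i')
    (η : ℝ) (hη : 0 < η) (hm : 0 < m) (hx : ∀ A : Finset κ, ∑ i ∈ A, x i ^ 2 ≤ 1 - η)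
    (ht : ∀ J : Finset ℕ, (∀ i ∈ J, e i ∉ B) → ∑ i ∈ J, x (e i) ^ 2 ≤ η / m) :
    amal x B e e' ∈ UB κ := by
  intro A
  have hm' : (0 : ℝ) < m := by exact_mod_cast hm
  rw [← Finset.sum_filter_add_sum_filter_not A (fun γ => γ ∈ B)]
  have p1 : ∑ γ ∈ A.filter (fun γ => γ ∈ B), amal x B e e' γ ^ 2 ≤ 1 - η := by
    refine (Finset.sum_le_sum fun γ hγ => ?_).trans (hx (A.filter (fun γ => γ ∈ B)))
    have hB : γ ∈ B := (Finset.mem_filter.1 hγ).2
    unfold amal
    rw [if_pos hB]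
    split_ifs
    · exact le_rfl
    · simpa using sq_nonneg (x γ)
  have p2 : ∑ γ ∈ A.filter (fun γ => ¬ γ ∈ B), amal x B e e' γ ^ 2 ≤
      ∑ l : Fin m, ∑ γ ∈ (A.filter (fun γ => ¬ γ ∈ B)).filter
        (fun γ => ∃ i, e i ∉ B ∧ e' l i = γ), amal x B e e' γ ^ 2 := by
    calc ∑ γ ∈ A.filter (fun γ => ¬ γ ∈ B), amal x B e e' γ ^ 2
        ≤ ∑ γ ∈ A.filter (fun γ => ¬ γ ∈ B), ∑ l : Fin m,
          (if ∃ i, e i ∉ B ∧ e' l i = γ then amal x B e e' γ ^ 2 else 0) := by
          refine Finset.sum_le_sum fun γ hγ => ?_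
          have hB : γ ∉ B := (Finset.mem_filter.1 hγ).2
          by_cases hex : ∃ q : Fin m × ℕ, e q.2 ∉ B ∧ e' q.1 q.2 = γ
          · obtain ⟨⟨l, i⟩, hq⟩ := hex
            refine le_trans ?_ (Finset.single_le_sum (fun l _ => ?_) (Finset.mem_univ l))
            · rw [if_pos ⟨i, hq⟩]
            · split_ifs
              · positivity
              · exact le_rfl
          · have h0 : amal x B e e' γ = 0 := by
              unfold amal
              rw [if_neg hB, dif_neg hex]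
            rw [h0]
            simp
      _ = _ := by
          rw [Finset.sum_comm]
          refine Finset.sum_congr rfl fun l _ => ?_
          exact (Finset.sum_filter _ _).symm
  have p3 : ∀ l : Fin m, ∑ γ ∈ (A.filter (fun γ => ¬ γ ∈ B)).filter
        (fun γ => ∃ i, e i ∉ B ∧ e' l i = γ), amal x B e e' γ ^ 2 ≤ η / m := by
    intro l
    obtain ⟨Al, hAl⟩ : ∃ Al, Al = (A.filter (fun γ => ¬ γ ∈ B)).filter
        (fun γ => ∃ i, e i ∉ B ∧ e' l i = γ) := ⟨_, rfl⟩
    rw [← hAl]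
    have h4 := Finset.sum_preimage (e' l) Al ((hinj l).injOn)
      (fun γ => amal x B e e' γ ^ 2) (fun γ hγ hn => by
        rw [hAl] at hγ
        obtain ⟨i, _, hi⟩ := (Finset.mem_filter.1 hγ).2
        exact absurd ⟨i, hi⟩ hn)
    rw [← h4]
    refine le_trans (le_of_eq ?_) (ht (Al.preimage (e' l) ((hinj l).injOn)) ?_)
    · refine Finset.sum_congr rfl fun i _ => ?_
      rw [amal_copy x B e e' hinj h1 h2 h3]
    · intro i hi
      rw [Finset.mem_preimage, hAl] at hi
      obtain ⟨i', hi', hi''⟩ := (Finset.mem_filter.1 hi).2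
      have := hinj l hi''
      rwa [← this]
  have p4 : ∑ l : Fin m, ∑ γ ∈ (A.filter (fun γ => ¬ γ ∈ B)).filter
        (fun γ => ∃ i, e i ∉ B ∧ e' l i = γ), amal x B e e' γ ^ 2 ≤ η := by
    refine (Finset.sum_le_sum fun l _ => p3 l).trans (le_of_eq ?_)
    rw [Finset.sum_const, Finset.card_univ, Fintype.card_fin, nsmul_eq_mul]
    field_simp
  linarith

theorem p1 : T_P1 := by
  intro κ E w e A hE hA hAe hcop x hroom
  obtain ⟨η, hη, hx⟩ := hroom
  have hmono : ∀ m n, m ≤ n → A m ⊆ A n := by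
    intro m n hmn
    induction hmn with
    | refl => exact subset_rfl
    | step _ ih => exact ih.trans (hA _)
  obtain ⟨a, ha⟩ : ∃ a : ℕ → ℝ, a = fun n => E.f (Fw w n) x := ⟨_, rfl⟩
  have hsum : Summable (fun n => |a n - a (n + 1)|) := by
    refine summable_of_sum_range_le (c := E.M) (fun n => abs_nonneg _) fun n => ?_
    rw [ha]
    exact E.mono (Fw w) (Fw_mono w) x n
  have hcau : CauchySeq a := by
    refine cauchySeq_of_summable_dist ?_
    simpa only [Real.dist_eq] using hsum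
  obtain ⟨ℓ, hℓ⟩ := cauchySeq_tendsto_of_complete hcau
  have hgoal : ℓ = 0 := by
    by_contra hne
    have hℓ0 : 0 < |ℓ| := abs_pos.2 hne
    -- eventually large
    have hev : ∀ᶠ n in atTop, |ℓ| / 2 ≤ |a n| := by
      have h1 := (continuous_abs.tendsto ℓ).comp hℓ
      exact (h1.eventually (lt_mem_nhds (by linarith : |ℓ| / 2 < |ℓ|))).mono fun n hn => hn.le
    obtain ⟨n₂, hn₂⟩ := eventually_atTop.1 hev
    obtain ⟨m, hm⟩ := exists_nat_gt (E.M / (|ℓ| / 2))
    have hM0 : 0 ≤ E.M := by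
      have := E.mono (Fw w) (Fw_mono w) x 0
      simpa using this
    have hm0 : 0 < m := by
      have : (0 : ℝ) < m := lt_of_le_of_lt (by positivity) hm
      exact_mod_cast this
    have hm' : (0 : ℝ) < m := by exact_mod_cast hm0
    -- the tail of the point
    have hz : ∀ J : Finset ℕ, ∑ i ∈ J, x.1 (e i) ^ 2 ≤ 1 := by
      intro J
      have := x.2 (J.image e)
      rwa [Finset.sum_image (fun i _ j _ h => hE.inj h)] at this
    have hs2 : Summable (fun i => x.1 (e i) ^ 2) :=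
      summable_of_sum_le (fun i => sq_nonneg _) hz
    obtain ⟨I₀, hI₀⟩ := hs2.vanishing (Iio_mem_nhds (show (0 : ℝ) < η / m by positivity))
    obtain ⟨n₀, hn₀⟩ : ∃ n₀, ∀ i ∈ I₀, e i ∈ A n₀ := by
      choose g hg using hAe
      refine ⟨I₀.sup g, fun i hi => hmono _ _ (Finset.le_sup hi) (hg i)⟩
    obtain ⟨w', e', c, hc, hE', hc', h1, h2, h3, hinc⟩ := hcop n₀ m
    have hmem := amal_mem x.1 (A n₀) e e' (fun l => (hE' l).inj) h1 h2 h3 η hη hm0 hx
      (fun J hJ => by
        refine le_of_lt (hI₀ J ?_)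
        rw [Finset.disjoint_left]
        intro i hi hi'
        exact hJ i hi (hn₀ i hi'))
    obtain ⟨y, hy⟩ : ∃ y : U κ, y = ⟨amal x.1 (A n₀) e e', hmem⟩ := ⟨_, rfl⟩
    obtain ⟨z, hzz⟩ : ∃ z : U ℕ, z = ⟨fun i => x.1 (e i), fun J => hz J⟩ := ⟨_, rfl⟩
    have hval : ∀ l n, E.f (Fw (w' l) n) y = a n := by
      intro l n
      rw [val_code (hE' l) (hc' l) y z (fun i => ?_) n, ha]
      · exact (val_code hE hc x z (fun i => by rw [hzz]) n).symm
      · rw [hy, hzz]
        exact amal_copy x.1 (A n₀) e e' (fun l => (hE' l).inj) h1 h2 h3 l i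
    -- a common threshold
    choose! t ht using hinc
    obtain ⟨n', hn1, hn2⟩ : ∃ n', n₂ ≤ n' ∧ ∀ l l', l ≠ l' → t l l' ≤ n' := by
      refine ⟨max n₂ (Finset.univ.sup fun q : Fin m × Fin m => t q.1 q.2), le_max_left _ _,
        fun l l' _ => le_trans ?_ (le_max_right _ _)⟩
      exact Finset.le_sup (f := fun q : Fin m × Fin m => t q.1 q.2) (Finset.mem_univ (l, l'))
    have hinj : Function.Injective (fun l => Fw (w' l) n') := by
      intro l l' hll
      by_contra hne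
      exact (ht l l' hne n' (hn2 l l' hne)).1 hll
    have hdisj := E.disj (Finset.univ.image fun l => Fw (w' l) n') (by
      intro F hF F' hF' hne
      obtain ⟨l, _, rfl⟩ := Finset.mem_image.1 hF
      obtain ⟨l', _, rfl⟩ := Finset.mem_image.1 hF'
      have hll : l ≠ l' := fun h => hne (by rw [h])
      exact (ht l l' hll n' (hn2 l l' hll)).2) y
    rw [Finset.sum_image (fun l _ l' _ h => hinj h)] at hdisj
    simp only [hval] at hdisj
    rw [Finset.sum_const, Finset.card_univ, Fintype.card_fin, nsmul_eq_mul] at hdisj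
    have h4 := hn₂ n' hn1
    rw [div_lt_iff₀ (by positivity)] at hm
    nlinarith
  rw [hgoal] at hℓ
  rw [ha] at hℓ
  exact hℓ

end Pool.Agent.W991.BH
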