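import Mathlib
import Pool.Agent.W683.BH.Stmts
import Pool.Agent.W991.BH.Copy

/-! BH-PLAY: construction of a play. -/

set_option autoImplicit false

namespace Pool.Agent.W991.BH

open Set Filter Topology Cardinal TopologicalSpace
open Pool.Agent.W683.BH
open scoped Classical

theorem bad_mono {κ : Type} {E : TE κ} {F F' : Finset (κ × ℕ)} (hB : Bad E F) (h : F ⊆ F') :
    Bad E F' := by
  induction hB generalizing F' with
  | emp F hF => exact Bad.emp F' fun h' => hF (E.anti _ _ h h')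
  | step F S hS _ ih =>
    exact Bad.step F' S hS fun w hw1 hw2 => ih w hw1 hw2 (Finset.insert_subset_insert _ h)

theorem good_P {κ : Type} {E : TE κ} {F : Finset (κ × ℕ)} (h : ¬ Bad E F) : E.P F := by
  by_contra h'
  exact h (Bad.emp F h')

theorem exists_out {κ : Type} (E : TE κ) (S : Set κ) (hS : W683.BH.Small S) :
    ∃ γ ∈ E.N, γ ∉ S := by
  by_contra h
  push Not at h
  exact absurd (mk_le_mk_of_subset (show E.N ⊆ S from h)) (not_le.2 (lt_of_le_of_lt hS E.hN))

theorem bad_not_basic {κ : Type} {E : TE κ} {F : Finset (κ × ℕ)} (hB : Bad E F) :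
    (∀ w ∈ F, w.1 ∈ E.N) → InjOn Prod.fst (F : Set (κ × ℕ)) →
      InjOn Prod.snd (F : Set (κ × ℕ)) → False := by
  induction hB with
  | emp F hF => exact fun h1 h2 h3 => hF (E.basic F h1 h2 h3)
  | step F S hS _ ih =>
    intro h1 h2 h3
    obtain ⟨γ, hγN, hγ⟩ := exists_out E (S ∪ (F.image Prod.fst : Finset κ))
      (small_union hS (small_countable (Finset.countable_toSet _)))
    have hγS : γ ∉ S := fun h => hγ (Or.inl h)
    have hγF : ∀ u ∈ F, u.1 ≠ γ := fun u hu h => hγ (Or.inr (by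
      rw [Finset.mem_coe, Finset.mem_image]; exact ⟨u, hu, h⟩))
    obtain ⟨k, hk⟩ : ∃ k : ℕ, ∀ u ∈ F, u.2 ≠ k :=
      ⟨F.sup Prod.snd + 1, fun u hu h => by
        have := Finset.le_sup (f := Prod.snd) hu
        omega⟩
    refine ih (γ, k) hγN hγS ?_ ?_ ?_
    · intro w hw
      rcases Finset.mem_insert.1 hw with h | h
      · rw [h]; exact hγN
      · exact h1 w h
    · intro u hu v hv huv
      rcases Finset.mem_insert.1 (Finset.mem_coe.1 hu) with h | h <;>
        rcases Finset.mem_insert.1 (Finset.mem_coe.1 hv) with h' | h'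
      · rw [h, h']
      · rw [h] at huv
        exact absurd huv.symm (hγF v h')
      · rw [h'] at huv
        exact absurd huv (hγF u h)
      · exact h2 h h' huv
    · intro u hu v hv huv
      rcases Finset.mem_insert.1 (Finset.mem_coe.1 hu) with h | h <;>
        rcases Finset.mem_insert.1 (Finset.mem_coe.1 hv) with h' | h'
      · rw [h, h']
      · rw [h] at huv
        exact absurd huv.symm (hk v h')
      · rw [h'] at huv
        exact absurd huv (hk u h)
      · exact h3 h h' huv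

theorem good_empty {κ : Type} (E : TE κ) : ¬ Bad E ∅ := fun h =>
  bad_not_basic h (by simp) (by simp) (by simp)

theorem exists_open {κ : Type} {E : TE κ} {F : Finset (κ × ℕ)} (h : ¬ Bad E F) :
    ∃ j, ¬ Closed E F j := by
  by_contra hcon
  push Not at hcon
  choose S hS1 hS2 using hcon
  refine h (Bad.step F (⋃ j, S j) (small_iUnion ?_ _ hS1) fun u hu1 hu2 =>
    hS2 u.2 u hu1 (fun h => hu2 (mem_iUnion.2 ⟨_, h⟩)) rfl)
  exact (Cardinal.mk_le_aleph0).trans aleph0_le_continuum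

theorem exists_ext {κ : Type} {E : TE κ} {F : Finset (κ × ℕ)} {j : ℕ} (h : ¬ Closed E F j)
    (S : Set κ) (hS : W683.BH.Small S) :
    ∃ u : κ × ℕ, u.1 ∈ E.N ∧ u.1 ∉ S ∧ u.2 = j ∧ ¬ Bad E (insert u F) := by
  by_contra hcon
  push Not at hcon
  exact h ⟨S, hS, fun u h1 h2 h3 => hcon u h1 h2 h3⟩

theorem play : T_PLAY := by
  intro κ E D Clo hK hC
  obtain ⟨St, hSt⟩ : ∃ St : Finset (κ × ℕ) × Set κ × ℕ → Prop, St = fun s =>
    ¬ Bad E s.1 ∧ W683.BH.Small s.2.1 ∧ Clo s.2.1 ∧ ¬ Closed E s.1 s.2.2 := ⟨_, rfl⟩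
  have hSt' : ∀ s, St s ↔ (¬ Bad E s.1 ∧ W683.BH.Small s.2.1 ∧ Clo s.2.1 ∧
      ¬ Closed E s.1 s.2.2) := fun s => by rw [hSt]
  have hstep : ∀ s : {s // St s}, ∃ (u : κ × ℕ) (s' : {s // St s}), u.1 ∈ E.N ∧ u.1 ∉ s.1.2.1 ∧
      u.2 = s.1.2.2 ∧ s'.1.1 = insert u s.1.1 ∧ s.1.2.1 ⊆ s'.1.2.1 ∧ u.1 ∈ s'.1.2.1 ∧
      (¬ Closed E s'.1.1 s.1.2.2 → s'.1.2.2 = s.1.2.2) := by
    rintro ⟨⟨F, A, j⟩, hs⟩
    rw [hSt] at hs
    obtain ⟨h1, h2, h3, h4⟩ := hs
    simp only at h1 h2 h3 h4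
    obtain ⟨u, hu1, hu2, hu3, hu4⟩ := exists_ext h4 A h2
    obtain ⟨A', hA1, hA2, hA3⟩ := hC.ex (A ∪ {u.1}) (small_union h2
      (small_countable (countable_singleton _)))
    obtain ⟨j', hj1, hj2⟩ : ∃ j', ¬ Closed E (insert u F) j' ∧
        (¬ Closed E (insert u F) j → j' = j) := by
      by_cases hcl : Closed E (insert u F) j
      · obtain ⟨j', hj'⟩ := exists_open hu4
        exact ⟨j', hj', fun h => absurd hcl h⟩
      · exact ⟨j, hcl, fun _ => rfl⟩
    refine ⟨u, ⟨(insert u F, A', j'), ?_⟩, hu1, hu2, hu3, rfl, ?_, ?_, hj2⟩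
    · rw [hSt]
      exact ⟨hu4, hA2, hA3, hj1⟩
    · exact subset_union_left.trans hA1
    · exact hA1 (Or.inr rfl)
  choose Uf Sf h1 h2 h3 h4 h5 h6 h7 using hstep
  obtain ⟨A₀, _, hA02, hA03⟩ := hC.ex ∅ small_empty
  obtain ⟨j₀, hj₀⟩ := exists_open (good_empty E)
  have hs0 : St (∅, A₀, j₀) := by
    rw [hSt]
    exact ⟨good_empty E, hA02, hA03, hj₀⟩
  obtain ⟨st, hst0, hst1⟩ : ∃ st : ℕ → {s // St s}, st 0 = ⟨_, hs0⟩ ∧
      ∀ n, st (n + 1) = Sf (st n) := ⟨fun n => Nat.rec ⟨_, hs0⟩ (fun _ s => Sf s) n, rfl,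
        fun n => rfl⟩
  obtain ⟨w, hw⟩ : ∃ w : ℕ → κ × ℕ, w = fun n => Uf (st n) := ⟨_, rfl⟩
  obtain ⟨A, hA⟩ : ∃ A : ℕ → Set κ, A = fun n => (st n).1.2.1 := ⟨_, rfl⟩
  have hF : ∀ n, (st n).1.1 = Fw w n := by
    intro n
    induction n with
    | zero => rw [hst0]; simp [Fw]
    | succ n ih =>
      rw [hst1, h4, ih]
      unfold Fw
      rw [Finset.range_add_one, Finset.image_insert, hw]
  have hinv : ∀ n, ¬ Bad E (st n).1.1 ∧ W683.BH.Small (st n).1.2.1 ∧ Clo (st n).1.2.1 ∧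
      ¬ Closed E (st n).1.1 (st n).1.2.2 := by
    intro n
    exact (hSt' _).1 (st n).2
  have hincr : ∀ n, A n ⊆ A (n + 1) := by
    intro n
    rw [hA]
    simp only
    rw [hst1]
    exact h5 _
  have hmono : ∀ m n, m ≤ n → A m ⊆ A n := by
    intro m n hmn
    induction hmn with
    | refl => exact subset_rfl
    | step _ ih => exact ih.trans (hincr _)
  have hout : ∀ n, (w n).1 ∉ A n := by
    intro n
    rw [hw, hA]
    exact h2 _
  have hmem : ∀ n, (w n).1 ∈ A (n + 1) := by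
    intro n
    rw [hw, hA]
    simp only
    rw [hst1]
    exact h6 _
  have hinj : Function.Injective w := by
    intro m n hmn
    by_contra hne
    rcases lt_or_gt_of_ne hne with h | h
    · exact hout n (by rw [← hmn]; exact hmono (m + 1) n h (hmem m))
    · exact hout m (by rw [hmn]; exact hmono (n + 1) m h (hmem n))
  refine ⟨w, A, ⟨?_, ?_, hincr, ?_, hout, hmem, ?_, ?_⟩⟩
  · intro n; rw [hA]; exact (hinv n).2.1
  · intro n; rw [hA]; exact (hinv n).2.2.1
  · intro n; rw [hw]; exact h1 _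
  · intro n; rw [← hF]; exact (hinv n).1
  · intro n
    by_contra hcon
    push Not at hcon
    have hj : ∀ t, (st (n + t)).1.2.2 = (w n).2 := by
      intro t
      induction t with
      | zero => rw [hw]; exact (h3 _).symm
      | succ t ih =>
        have h8 := hcon (n + t + 1) (by omega)
        rw [← hF, ← ih, hst1] at h8
        rw [← add_assoc, hst1, h7 _ h8]
        exact ih
    have hscale : ∀ t, (w (n + t)).2 = (w n).2 := by
      intro t
      rw [← hj t]
      conv_lhs => rw [hw]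
      exact h3 _
    have hP := good_P (hinv (n + (E.Nb (w n).2 + 1))).1
    rw [hF] at hP
    obtain ⟨G, hG⟩ : ∃ G : Finset (κ × ℕ), G =
      (Finset.range (E.Nb (w n).2 + 1)).image (fun t => w (n + t)) := ⟨_, rfl⟩
    have hGP : E.P G := by
      refine E.anti _ _ ?_ hP
      intro u hu
      rw [hG, Finset.mem_image] at hu
      obtain ⟨t, ht, rfl⟩ := hu
      rw [Finset.mem_range] at ht
      exact (mem_Fw _ _ _).2 ⟨n + t, by omega, rfl⟩
    have hcard := E.order (w n).2 G (fun u hu => by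
      rw [hG, Finset.mem_image] at hu
      obtain ⟨t, _, rfl⟩ := hu
      exact hscale t) hGP
    rw [hG, Finset.card_image_of_injective _ (fun s t hst => by
      have := hinj hst
      omega), Finset.card_range] at hcard
    omega

end Pool.Agent.W991.BH
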